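import Mathlib
import Pool.Agent.H562.BP.Stm

/-!
# Power sums (project BP, statement PS)
-/

set_option autoImplicit false

open Finset

namespace Pool.Agent.H113.BP562

/-- the partial sums of the zeta function at `n` -/
noncomputable def f (n h : ℕ) : ℝ := ∑ a ∈ Icc 1 h, ((a : ℝ) ^ n)⁻¹

theorem f_succ (n h : ℕ) : f n (h + 1) = f n h + (((h + 1 : ℕ) : ℝ) ^ n)⁻¹ := by
  unfold f
  rw [sum_Icc_succ_top (by omega)]

theorem f_mono (n : ℕ) : Monotone (f n) := by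
  refine monotone_nat_of_le_succ fun h => ?_
  rw [f_succ]
  have : 0 ≤ (((h + 1 : ℕ) : ℝ) ^ n)⁻¹ := by positivity
  linarith

theorem f_tail (n h j : ℕ) (hh : 1 ≤ h) :
    f (n + 2) (h + j) ≤ f (n + 2) h + ((h : ℝ) ^ n)⁻¹ * ((h : ℝ)⁻¹ - ((h + j : ℕ) : ℝ)⁻¹) := by
  induction j with
  | zero => simp
  | succ j ih =>
    rw [← Nat.add_assoc, f_succ]
    have h0 : (1 : ℝ) ≤ h := by exact_mod_cast hh
    obtain ⟨x, hx⟩ : ∃ x : ℝ, x = ((h + j : ℕ) : ℝ) := ⟨_, rfl⟩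
    have hxh : (h : ℝ) ≤ x := by
      rw [hx]; exact_mod_cast Nat.le_add_right h j
    have hx1 : 1 ≤ x := h0.trans hxh
    have e1 : ((h + j + 1 : ℕ) : ℝ) = x + 1 := by rw [hx]; push_cast; ring
    rw [← hx] at ih
    rw [e1]
    have h1 : ((x + 1) ^ (n + 2))⁻¹ ≤ ((h : ℝ) ^ n)⁻¹ * (x⁻¹ - (x + 1)⁻¹) := by
      have h2 : x⁻¹ - (x + 1)⁻¹ = (x * (x + 1))⁻¹ := by
        have : x ≠ 0 := by positivity
        have : x + 1 ≠ 0 := by positivity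
        field_simp
        ring
      rw [h2, ← mul_inv]
      apply inv_anti₀ (by positivity)
      rw [pow_add]
      apply mul_le_mul
      · exact pow_le_pow_left₀ (by positivity) (by linarith) n
      · nlinarith
      · positivity
      · positivity
    have h3 : ((h : ℝ) ^ n)⁻¹ * ((h : ℝ)⁻¹ - (x + 1)⁻¹) =
        ((h : ℝ) ^ n)⁻¹ * ((h : ℝ)⁻¹ - x⁻¹) + ((h : ℝ) ^ n)⁻¹ * (x⁻¹ - (x + 1)⁻¹) := by ring
    rw [h3]
    linarith

theorem f_tail' (n h N : ℕ) (hh : 1 ≤ h) : f (n + 2) N ≤ f (n + 2) h + ((h : ℝ) ^ (n + 1))⁻¹ := by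
  have h0 : (1 : ℝ) ≤ h := by exact_mod_cast hh
  rcases le_total N h with h1 | h1
  · have h2 := f_mono (n + 2) h1
    have h3 : 0 ≤ ((h : ℝ) ^ (n + 1))⁻¹ := by positivity
    linarith
  · obtain ⟨j, rfl⟩ := Nat.exists_eq_add_of_le h1
    refine (f_tail n h j hh).trans ?_
    have h2 : ((h : ℝ) ^ (n + 1))⁻¹ = ((h : ℝ) ^ n)⁻¹ * (h : ℝ)⁻¹ := by rw [pow_succ, mul_inv]
    rw [h2]
    have h3 : 0 ≤ ((h + j : ℕ) : ℝ)⁻¹ := by positivity
    have h4 : ((h : ℝ) ^ n)⁻¹ * ((h : ℝ)⁻¹ - ((h + j : ℕ) : ℝ)⁻¹) ≤ ((h : ℝ) ^ n)⁻¹ * (h : ℝ)⁻¹ :=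
      mul_le_mul_of_nonneg_left (by linarith) (by positivity)
    linarith

theorem lim (n : ℕ) : ∃ z : ℝ, ∀ h : ℕ, f (n + 2) h ≤ z ∧ (1 ≤ h → z ≤ f (n + 2) h + ((h : ℝ) ^ (n + 1))⁻¹) := by
  have hb : BddAbove (Set.range (f (n + 2))) := by
    refine ⟨f (n + 2) 1 + (((1 : ℕ) : ℝ) ^ (n + 1))⁻¹, ?_⟩
    rintro _ ⟨N, rfl⟩
    exact f_tail' n 1 N le_rfl
  refine ⟨⨆ h, f (n + 2) h, fun h => ⟨le_ciSup hb h, fun hh => ciSup_le fun N => f_tail' n h N hh⟩⟩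

/-- the bounds for `h = (r - 1) / 2` -/
theorem half (r : ℕ) (hr : 3 ≤ r) : 1 ≤ (r - 1) / 2 ∧ (r : ℝ) / 4 ≤ (((r - 1) / 2 : ℕ) : ℝ) ∧
    (((r - 1) / 2 : ℕ) : ℝ) ≤ r := by
  refine ⟨by omega, ?_, ?_⟩
  · have h1 : r ≤ 4 * ((r - 1) / 2) := by omega
    have h2 : (r : ℝ) ≤ 4 * (((r - 1) / 2 : ℕ) : ℝ) := by exact_mod_cast h1
    linarith
  · have h1 : (r - 1) / 2 ≤ r := by omega
    exact_mod_cast h1

theorem ps_neg (n : ℕ) : ∃ z K : ℝ, ∀ r : ℕ, 1 ≤ r →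
    |f (n + 2) ((r - 1) / 2) - z| ≤ K * ((r : ℝ) ^ (n + 1))⁻¹ := by
  obtain ⟨z, hz⟩ := lim n
  have hz0 : 0 ≤ z := by
    have h1 := (hz 0).1
    unfold f at h1
    simpa using h1
  refine ⟨z, z * 4 ^ (n + 1) + 4 ^ (n + 1), fun r hr => ?_⟩
  have hr0 : (1 : ℝ) ≤ r := by exact_mod_cast hr
  rcases Nat.lt_or_ge r 3 with h3 | h3
  · have e1 : (r - 1) / 2 = 0 := by omega
    rw [e1]
    have e2 : f (n + 2) 0 = 0 := by unfold f; simp
    rw [e2, zero_sub, abs_neg, abs_of_nonneg hz0]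
    have h4 : (r : ℝ) ≤ 4 := by
      have : r ≤ 4 := by omega
      exact_mod_cast this
    have h5 : (r : ℝ) ^ (n + 1) ≤ 4 ^ (n + 1) := pow_le_pow_left₀ (by positivity) h4 _
    have h6 : 1 ≤ 4 ^ (n + 1) * ((r : ℝ) ^ (n + 1))⁻¹ := by
      rw [← div_eq_mul_inv, le_div_iff₀ (by positivity), one_mul]
      exact h5
    calc z = z * 1 := (mul_one z).symm
      _ ≤ z * (4 ^ (n + 1) * ((r : ℝ) ^ (n + 1))⁻¹) := mul_le_mul_of_nonneg_left h6 hz0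
      _ ≤ (z * 4 ^ (n + 1) + 4 ^ (n + 1)) * ((r : ℝ) ^ (n + 1))⁻¹ := by
          have : (0 : ℝ) ≤ 4 ^ (n + 1) * ((r : ℝ) ^ (n + 1))⁻¹ := by positivity
          nlinarith
  · obtain ⟨h4, h5, _⟩ := half r h3
    obtain ⟨h7, h8⟩ := hz ((r - 1) / 2)
    have h8 := h8 h4
    rw [abs_sub_comm, abs_of_nonneg (by linarith)]
    have h9 : (((((r - 1) / 2 : ℕ) : ℝ)) ^ (n + 1))⁻¹ ≤ 4 ^ (n + 1) * ((r : ℝ) ^ (n + 1))⁻¹ := by
      have h10 : ((r : ℝ) / 4) ^ (n + 1) ≤ ((((r - 1) / 2 : ℕ) : ℝ)) ^ (n + 1) :=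
        pow_le_pow_left₀ (by positivity) h5 _
      have h11 := inv_anti₀ (by positivity) h10
      refine h11.trans (le_of_eq ?_)
      rw [div_pow, inv_div, div_eq_mul_inv]
    have h12 : 0 ≤ z * 4 ^ (n + 1) * ((r : ℝ) ^ (n + 1))⁻¹ := by positivity
    rw [add_mul]
    linarith

theorem log4 : Real.log 4 ≤ 2 := by
  have h1 : Real.log 4 = 2 * Real.log 2 := by
    rw [show (4 : ℝ) = 2 ^ 2 by norm_num, Real.log_pow]
    push_cast; ring
  have h2 := Real.log_two_lt_d9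
  rw [h1]
  linarith

theorem ps_one (r : ℕ) (hr : 1 ≤ r) : |f 1 ((r - 1) / 2) - Real.log r| ≤ 2 := by
  have hr0 : (1 : ℝ) ≤ r := by exact_mod_cast hr
  have hf : f 1 ((r - 1) / 2) = ((harmonic ((r - 1) / 2) : ℚ) : ℝ) := by
    rw [harmonic_eq_sum_Icc]
    unfold f
    push_cast
    refine sum_congr rfl fun a _ => ?_
    rw [pow_one]
  rcases Nat.lt_or_ge r 3 with h3 | h3
  · have e1 : (r - 1) / 2 = 0 := by omega
    rw [e1]
    have e2 : f 1 0 = 0 := by unfold f; simp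
    rw [e2, zero_sub, abs_neg, abs_of_nonneg (Real.log_nonneg hr0)]
    refine le_trans (Real.log_le_log (by positivity) ?_) log4
    have : r ≤ 4 := by omega
    exact_mod_cast this
  · obtain ⟨h4, h5, h6⟩ := half r h3
    have hh : (0 : ℝ) < (((r - 1) / 2 : ℕ) : ℝ) := by exact_mod_cast h4
    have h7 := harmonic_le_one_add_log ((r - 1) / 2)
    have h8 := log_add_one_le_harmonic ((r - 1) / 2)
    rw [← hf] at h7 h8
    have h9 : Real.log (((r - 1) / 2 : ℕ) : ℝ) ≤ Real.log r := Real.log_le_log hh h6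
    have h10 : Real.log (((r - 1) / 2 : ℕ) : ℝ) ≤ Real.log (((r - 1) / 2 + 1 : ℕ) : ℝ) :=
      Real.log_le_log hh (by push_cast; linarith)
    have h11 : Real.log ((r : ℝ) / 4) ≤ Real.log (((r - 1) / 2 : ℕ) : ℝ) :=
      Real.log_le_log (by positivity) h5
    rw [Real.log_div (by positivity) (by norm_num)] at h11
    have h12 := log4
    rw [abs_le]
    constructor <;> linarith

theorem ps_holds : H562BP.S_PS := by
  intro s
  rcases lt_trichotomy s (-1) with hs | hs | hs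
  · obtain ⟨n, hn⟩ : ∃ n : ℕ, s = -((n + 2 : ℕ) : ℤ) := ⟨(-s - 2).toNat, by push_cast; omega⟩
    obtain ⟨z, K, h⟩ := ps_neg n
    refine ⟨z, K, fun r hr => ?_⟩
    have h1 := h r hr
    rw [if_pos (by omega)]
    have h2 : ∑ a ∈ Icc 1 ((r - 1) / 2), (a : ℝ) ^ s = f (n + 2) ((r - 1) / 2) := by
      unfold f
      refine sum_congr rfl fun a _ => ?_
      rw [hn, zpow_neg, zpow_natCast]
    have h3 : (r : ℝ) ^ (s + 1) = ((r : ℝ) ^ (n + 1))⁻¹ := by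
      rw [show s + 1 = -((n + 1 : ℕ) : ℤ) by rw [hn]; push_cast; ring, zpow_neg, zpow_natCast]
    rw [h2, h3]
    exact h1
  · refine ⟨0, 2, fun r hr => ?_⟩
    rw [if_neg (by omega), if_pos hs]
    have h2 : ∑ a ∈ Icc 1 ((r - 1) / 2), (a : ℝ) ^ s = f 1 ((r - 1) / 2) := by
      unfold f
      refine sum_congr rfl fun a _ => ?_
      rw [hs, zpow_neg, zpow_one, pow_one]
    rw [h2, hs, neg_add_cancel, zpow_zero, mul_one]
    exact ps_one r hr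
  · refine ⟨0, 1, fun r hr => ?_⟩
    have hr0 : (1 : ℝ) ≤ r := by exact_mod_cast hr
    rw [if_neg (by omega), if_neg (by omega), sub_zero, one_mul]
    obtain ⟨n, rfl⟩ := Int.eq_ofNat_of_zero_le (show 0 ≤ s by omega)
    rw [show ((n : ℤ) + 1) = ((n + 1 : ℕ) : ℤ) by push_cast; ring, zpow_natCast]
    simp_rw [zpow_natCast]
    rw [abs_of_nonneg (sum_nonneg fun a _ => by positivity)]
    calc ∑ a ∈ Icc 1 ((r - 1) / 2), (a : ℝ) ^ n ≤ ∑ _a ∈ Icc 1 ((r - 1) / 2), (r : ℝ) ^ n := by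
          refine sum_le_sum fun a ha => ?_
          rw [mem_Icc] at ha
          refine pow_le_pow_left₀ (Nat.cast_nonneg a) ?_ n
          have : a ≤ r := by omega
          exact_mod_cast this
      _ = (((r - 1) / 2 : ℕ) : ℝ) * (r : ℝ) ^ n := by
          rw [sum_const, Nat.card_Icc, nsmul_eq_mul, Nat.add_sub_cancel]
      _ ≤ (r : ℝ) * (r : ℝ) ^ n := by
          refine mul_le_mul_of_nonneg_right ?_ (by positivity)
          have : (r - 1) / 2 ≤ r := by omega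
          exact_mod_cast this
      _ = (r : ℝ) ^ (n + 1) := by rw [pow_succ, mul_comm]

end Pool.Agent.H113.BP562
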